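import Mathlib
import Pool.Agent.helper35.Hz.Supp

/-! # MODULE B, part 1: `comm_phi_A`, `equiv_A`, `equiv_B` -/

set_option linter.unusedSimpArgs false

namespace Pool.Agent.helper5.Hz

open Pool.Agent.helper35.Hz

theorem phi_ga {g m i : ℕ} (h : i < m) : phi g m (ga m i) = pushA g m i := mkHom_ga _ _ h
theorem phi_gb {g m i : ℕ} (h : i < m) : phi g m (gb m i) = pushB g m i := mkHom_gb _ _ h

theorem A_ga {g i x : ℕ} (hx : x < g) : tauA g i (ga g x) = ga g x := by
  rw [tauA, tw_ga hx]; simp [bA]

theorem A_gb {g i x : ℕ} (hx : x < g) :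
    tauA g i (gb g x) = if x = i then gb g x * (ga g x)⁻¹ else gb g x := by
  rw [tauA, tw_gb hx]
  by_cases h : x = i
  · subst h; simp [bA]
  · simp [bA, h]

theorem B_ga {g i x : ℕ} (hx : x < g) :
    tauB g i (ga g x) = if x = i then ga g x * gb g x else ga g x := by
  rw [tauB, tw_ga hx]
  by_cases h : x = i
  · subst h; simp [bB]
  · simp [bB, h]

theorem B_gb {g i x : ℕ} (hx : x < g) : tauB g i (gb g x) = gb g x := by
  rw [tauB, tw_gb hx]; simp [bB]



theorem tauA_pushA {g m i l : ℕ} (hi : i ≤ m) (hl : l < m) (hm : m < g) :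
    tauA g i * pushA g m l = pushA g m l * tauA g i := by
  have h : l < m ∧ m < g := ⟨hl, hm⟩
  refine fg_aut_ext (fun x hx => ?_) (fun x hx => ?_) <;>
  · simp only [MulAut.mul_apply]
    rcases lt_trichotomy x l with c1 | c1 | c1 <;> rcases lt_trichotomy x m with c2 | c2 | c2 <;>
    rcases lt_trichotomy x i with c3 | c3 | c3 <;>
    first
    | (exfalso; omega)
    | (try subst c1
       try subst c2
       try subst c3
       simp (disch := omega) only [pushA_ga h, pushA_gb h, A_ga, A_gb, pAA, pAB, map_mul,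
         map_inv, if_pos, if_neg, if_true, if_false]
       try simp [mul_assoc])

theorem tauA_pushB {g m i l : ℕ} (hi : i ≤ m) (hne : i ≠ l) (hl : l < m) (hm : m < g) :
    tauA g i * pushB g m l = pushB g m l * tauA g i := by
  have h : l < m ∧ m < g := ⟨hl, hm⟩
  refine fg_aut_ext (fun x hx => ?_) (fun x hx => ?_) <;>
  · simp only [MulAut.mul_apply]
    rcases lt_trichotomy x l with c1 | c1 | c1 <;> rcases lt_trichotomy x m with c2 | c2 | c2 <;>
    rcases lt_trichotomy x i with c3 | c3 | c3 <;>
    first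
    | (exfalso; omega)
    | (try subst c1
       try subst c2
       try subst c3
       simp (disch := omega) only [pushB_ga h, pushB_gb h, A_ga, A_gb, pBA, pBB, map_mul,
         map_inv, if_pos, if_neg, if_true, if_false]
       try simp [mul_assoc])

theorem tauB_pushA {g m i l : ℕ} (hi : i < m) (hne : i ≠ l) (hl : l < m) (hm : m < g) :
    tauB g i * pushA g m l = pushA g m l * tauB g i := by
  have h : l < m ∧ m < g := ⟨hl, hm⟩
  refine fg_aut_ext (fun x hx => ?_) (fun x hx => ?_) <;>
  · simp only [MulAut.mul_apply]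
    rcases lt_trichotomy x l with c1 | c1 | c1 <;> rcases lt_trichotomy x m with c2 | c2 | c2 <;>
    rcases lt_trichotomy x i with c3 | c3 | c3 <;>
    first
    | (exfalso; omega)
    | (try subst c1
       try subst c2
       try subst c3
       simp (disch := omega) only [pushA_ga h, pushA_gb h, B_ga, B_gb, pAA, pAB, map_mul,
         map_inv, if_pos, if_neg, if_true, if_false]
       try simp [mul_assoc])

theorem tauB_pushB {g m i l : ℕ} (hi : i < m) (hl : l < m) (hm : m < g) :
    tauB g i * pushB g m l = pushB g m l * tauB g i := by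
  have h : l < m ∧ m < g := ⟨hl, hm⟩
  refine fg_aut_ext (fun x hx => ?_) (fun x hx => ?_) <;>
  · simp only [MulAut.mul_apply]
    rcases lt_trichotomy x l with c1 | c1 | c1 <;> rcases lt_trichotomy x m with c2 | c2 | c2 <;>
    rcases lt_trichotomy x i with c3 | c3 | c3 <;>
    first
    | (exfalso; omega)
    | (try subst c1
       try subst c2
       try subst c3
       simp (disch := omega) only [pushB_ga h, pushB_gb h, B_ga, B_gb, pBA, pBB, map_mul,
         map_inv, if_pos, if_neg, if_true, if_false]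
       try simp [mul_assoc])

theorem tauA_pushB_self {g m l : ℕ} (hl : l < m) (hm : m < g) :
    tauA g l * (pushB g m l * pushA g m l) = pushB g m l * tauA g l := by
  have h : l < m ∧ m < g := ⟨hl, hm⟩
  refine fg_aut_ext (fun x hx => ?_) (fun x hx => ?_) <;>
  · simp only [MulAut.mul_apply]
    rcases lt_trichotomy x l with c1 | c1 | c1 <;> rcases lt_trichotomy x m with c2 | c2 | c2 <;>
    first
    | (exfalso; omega)
    | (try subst c1
       try subst c2
       simp (disch := omega) only [pushB_ga h, pushB_gb h, pushA_ga h, pushA_gb h, A_ga, A_gb, pAA, pAB, pBA,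
         pBB, map_mul, map_inv, if_pos, if_neg, if_true, if_false]
       try simp [mul_assoc])

theorem tauB_pushA_self {g m l : ℕ} (hl : l < m) (hm : m < g) :
    tauB g l * pushA g m l = pushA g m l * pushB g m l * tauB g l := by
  have h : l < m ∧ m < g := ⟨hl, hm⟩
  refine fg_aut_ext (fun x hx => ?_) (fun x hx => ?_) <;>
  · simp only [MulAut.mul_apply]
    rcases lt_trichotomy x l with c1 | c1 | c1 <;> rcases lt_trichotomy x m with c2 | c2 | c2 <;>
    first
    | (exfalso; omega)
    | (try subst c1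
       try subst c2
       simp (disch := omega) only [pushB_ga h, pushB_gb h, pushA_ga h, pushA_gb h, B_ga, B_gb, pAA, pAB, pBA,
         pBB, map_mul, map_inv, if_pos, if_neg, if_true, if_false]
       try simp [mul_assoc])

/-- `f ↦ T f T⁻¹` compared with `phi` on generators -/
theorem equiv_of_gen {g m : ℕ} (T : MulAut (FG g)) (T' : MulAut (FG m))
    (ha : ∀ l < m, T * phi g m (ga m l) * T⁻¹ = phi g m (T' (ga m l)))
    (hb : ∀ l < m, T * phi g m (gb m l) * T⁻¹ = phi g m (T' (gb m l))) (w : FG m) :
    T * phi g m w * T⁻¹ = phi g m (T' w) := by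
  have : (MulAut.conj T).toMonoidHom.comp (phi g m) = (phi g m).comp T'.toMonoidHom :=
    fg_hom_ext (fun i hi => ha i hi) (fun i hi => hb i hi)
  exact DFunLike.congr_fun this w

theorem comm_phi_A {g m : ℕ} (hm : m < g) (w : FG m) : Commute (phi g m w) (tauA g m) := by
  have := equiv_of_gen (tauA g m) (1 : MulAut (FG m)) (fun l hl => by
      rw [phi_ga hl, mul_inv_eq_iff_eq_mul, MulAut.one_apply, phi_ga hl]
      exact tauA_pushA le_rfl hl hm) (fun l hl => by
      rw [phi_gb hl, mul_inv_eq_iff_eq_mul, MulAut.one_apply, phi_gb hl]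
      exact tauA_pushB le_rfl (by omega) hl hm) w
  rw [mul_inv_eq_iff_eq_mul, MulAut.one_apply] at this
  exact this.symm

theorem equiv_A {g m i : ℕ} (hi : i < m) (hm : m < g) (w : FG m) :
    tauA g i * phi g m w * (tauA g i)⁻¹ = phi g m (tauA m i w) := by
  refine equiv_of_gen (tauA g i) (tauA m i) (fun l hl => ?_) (fun l hl => ?_) w
  · rw [phi_ga hl, mul_inv_eq_iff_eq_mul, A_ga hl, phi_ga hl]
    exact tauA_pushA hi.le hl hm
  · rw [phi_gb hl, A_gb hl]
    split_ifs with h
    · subst h
      rw [map_mul, map_inv, phi_gb hl, phi_ga hl, eq_mul_inv_iff_mul_eq, mul_assoc, mul_assoc]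
      have h1 := tauA_pushA hi.le hl hm
      have h2 := tauA_pushB_self hl hm
      have h3 : (tauA g l)⁻¹ * pushA g m l = pushA g m l * (tauA g l)⁻¹ := by
        rw [inv_mul_eq_iff_eq_mul, ← mul_assoc, h1]; group
      rw [h3, ← mul_assoc, ← mul_assoc, mul_inv_eq_iff_eq_mul, mul_assoc, h2]
    · rw [phi_gb hl, mul_inv_eq_iff_eq_mul]
      exact tauA_pushB hi.le (Ne.symm h) hl hm

theorem equiv_B {g m i : ℕ} (hi : i < m) (hm : m < g) (w : FG m) :
    tauB g i * phi g m w * (tauB g i)⁻¹ = phi g m (tauB m i w) := by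
  refine equiv_of_gen (tauB g i) (tauB m i) (fun l hl => ?_) (fun l hl => ?_) w
  · rw [phi_ga hl, B_ga hl]
    split_ifs with h
    · subst h
      rw [map_mul, phi_gb hl, phi_ga hl, mul_inv_eq_iff_eq_mul]
      exact tauB_pushA_self hl hm
    · rw [phi_ga hl, mul_inv_eq_iff_eq_mul]
      exact tauB_pushA hi (Ne.symm h) hl hm
  · rw [phi_gb hl, mul_inv_eq_iff_eq_mul, B_gb hl, phi_gb hl]
    exact tauB_pushB hi hl hm

end Pool.Agent.helper5.Hz
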