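import Mathlib
import Pool.Agent.helper5.Hz.B1

/-! # MODULE B, part 3: `phi_init`, `phi_F` -/

set_option linter.unusedSimpArgs false

namespace Pool.Agent.helper5.Hz

open Pool.Agent.helper35.Hz

theorem phi_init_aux {g m : ℕ} (hm : m + 1 < g) :
    tauA g m * (pushB g (m + 1) m * pushA g (m + 1) m) = tauM g m (m + 1) * pushB g (m + 1) m := by
  have h : m < m + 1 ∧ m + 1 < g := ⟨by omega, hm⟩
  have hm' : m < g := by omega
  refine fg_aut_ext (fun l hl => ?_) (fun l hl => ?_)
  · rcases lt_trichotomy l m with c | c | c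
    · have e1 : l ≠ m := by omega
      have e2 : l ≠ m + 1 := by omega
      have e3 : ¬ m < l := by omega
      simp [MulAut.mul_apply, pushA_ga h hl, pushB_ga h hl, pAA, pBA, e1, e2, e3, tauA, tauM, h, tw_ga hl,
        bA, αM, βM, mul_assoc]
    · subst c
      simp [MulAut.mul_apply, pushA_ga h hl, pushB_ga h hl, pushA_gb h hl, pushB_gb h hl,
        pushB_ga h hm, pushB_gb h hm, pAA, pBA, pAB, pBB, tauA, tauM, h, tw_ga hl, tw_gb hl, tw_ga hm, tw_gb hm,
        bA, αM, βM, mu, zr_self, mul_assoc]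
    · rcases eq_or_ne l (m + 1) with c' | c'
      · subst c'
        simp [MulAut.mul_apply, pushA_ga h hl, pushB_ga h hl, pushA_gb h hl, pushB_gb h hl,
          pushB_ga h hm', pushB_gb h hm', pAA, pBA, pAB, pBB, tauA, tauM, h, tw_ga hl, tw_gb hl, tw_ga hm',
          tw_gb hm', bA, αM, βM, mu, zr_self, mul_assoc]
      · have e1 : l ≠ m := by omega
        have e3 : ¬ l < m + 1 := by omega
        have e4 : ¬ l ≤ m + 1 := by omega
        simp [MulAut.mul_apply, pushA_ga h hl, pushB_ga h hl, pAA, pBA, e1, e3, e4, c', tauA, tauM, h,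
          tw_ga hl, bA, αM, βM, mul_assoc]
  · rcases lt_trichotomy l m with c | c | c
    · have e1 : l ≠ m := by omega
      have e2 : l ≠ m + 1 := by omega
      have e3 : ¬ m < l := by omega
      simp [MulAut.mul_apply, pushA_gb h hl, pushB_gb h hl, pAB, pBB, e1, e2, e3, tauA, tauM, h, tw_gb hl,
        bA, αM, βM, mul_assoc]
    · subst c
      simp [MulAut.mul_apply, pushA_ga h hl, pushB_ga h hl, pushA_gb h hl, pushB_gb h hl,
        pushB_ga h hm, pushB_gb h hm, pAA, pBA, pAB, pBB, tauA, tauM, h, tw_ga hl, tw_gb hl, tw_ga hm, tw_gb hm,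
        bA, αM, βM, mu, zr_self, mul_assoc]
    · rcases eq_or_ne l (m + 1) with c' | c'
      · subst c'
        simp [MulAut.mul_apply, pushA_ga h hl, pushB_ga h hl, pushA_gb h hl, pushB_gb h hl,
          pushB_ga h hm', pushB_gb h hm', pAA, pBA, pAB, pBB, tauA, tauM, h, tw_ga hl, tw_gb hl, tw_ga hm',
          tw_gb hm', bA, αM, βM, mu, zr_self, mul_assoc]
      · have e1 : l ≠ m := by omega
        have e3 : ¬ l < m + 1 := by omega
        have e4 : ¬ l ≤ m + 1 := by omega
        simp [MulAut.mul_apply, pushA_gb h hl, pushB_gb h hl, pAB, pBB, e1, e3, e4, c', tauA, tauM, h,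
          tw_gb hl, bA, αM, βM, mul_assoc]

theorem phi_init {g m : ℕ} (hm : m + 1 < g) :
    phi g (m + 1) (gb (m + 1) m * ga (m + 1) m * (gb (m + 1) m)⁻¹) =
      (tauA g m)⁻¹ * tauM g m (m + 1) := by
  have h := phi_init_aux hm
  rw [map_mul, map_mul, map_inv, phi_ga (by omega), phi_gb (by omega), mul_inv_eq_iff_eq_mul,
    mul_assoc, eq_comm, inv_mul_eq_iff_eq_mul, h]

theorem phi_F_aux {g m j : ℕ} (hj : j < m) (hm : m < g) :
    (pushA g m j * tauB g m * pushB g m j) * tauB g m =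
      tauB g j * (pushA g m j * tauB g m * pushB g m j) := by
  have h : j < m ∧ m < g := ⟨hj, hm⟩
  have hjg : j < g := by omega
  have e0 : j ≠ m := by omega
  have e0' : m ≠ j := by omega
  refine fg_aut_ext (fun l hl => ?_) (fun l hl => ?_)
  · rcases eq_or_ne l j with c | c
    · subst c
      simp [MulAut.mul_apply, pushA_ga h hl, pushB_ga h hl, pushA_gb h hl, pushB_gb h hl,
        pushA_ga h hm, pushA_gb h hm,
        pushB_ga h hm, pushB_gb h hm, pAA, pBA, pAB, pBB, tauB, tw_ga hl, tw_gb hl, tw_ga hm, tw_gb hm,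
        bB, hj, e0, e0', mul_assoc]
    · rcases eq_or_ne l m with c' | c'
      · subst c'
        simp [MulAut.mul_apply, pushA_ga h hl, pushB_ga h hl, pushA_gb h hl, pushB_gb h hl,
          pushA_ga h hjg, pushA_gb h hjg,
          pushB_ga h hjg, pushB_gb h hjg, pAA, pBA, pAB, pBB, tauB, tw_ga hl, tw_gb hl, tw_ga hjg, tw_gb hjg,
          bB, hj, e0, e0', mul_assoc]
      · by_cases c2 : j < l ∧ l < m
        · simp [MulAut.mul_apply, pushA_ga h hl, pushB_ga h hl, pushA_gb h hl, pushB_gb h hl,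
            pushA_ga h hjg, pushA_gb h hjg, pushA_ga h hm, pushA_gb h hm, pushB_ga h hm, pushB_gb h hm,
            pushB_ga h hjg, pushB_gb h hjg, pAA, pBA, pAB, pBB, tauB, tw_ga hl, tw_gb hl, tw_ga hjg, tw_gb hjg,
            tw_ga hm, tw_gb hm, bB, hj, e0, e0', c, c', c2, mul_assoc]
        · simp [MulAut.mul_apply, pushA_ga h hl, pushB_ga h hl, pAA, pBA, tauB, tw_ga hl, bB, c, c', c2]
  · rcases eq_or_ne l j with c | c
    · subst c
      simp [MulAut.mul_apply, pushA_ga h hl, pushB_ga h hl, pushA_gb h hl, pushB_gb h hl,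
        pushA_ga h hm, pushA_gb h hm,
        pushB_ga h hm, pushB_gb h hm, pAA, pBA, pAB, pBB, tauB, tw_ga hl, tw_gb hl, tw_ga hm, tw_gb hm,
        bB, hj, e0, e0', mul_assoc]
    · rcases eq_or_ne l m with c' | c'
      · subst c'
        simp [MulAut.mul_apply, pushA_ga h hl, pushB_ga h hl, pushA_gb h hl, pushB_gb h hl,
          pushA_ga h hjg, pushA_gb h hjg,
          pushB_ga h hjg, pushB_gb h hjg, pAA, pBA, pAB, pBB, tauB, tw_ga hl, tw_gb hl, tw_ga hjg, tw_gb hjg,
          bB, hj, e0, e0', mul_assoc]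
      · by_cases c2 : j < l ∧ l < m
        · simp [MulAut.mul_apply, pushA_ga h hl, pushB_ga h hl, pushA_gb h hl, pushB_gb h hl,
            pushA_ga h hjg, pushA_gb h hjg, pushA_ga h hm, pushA_gb h hm, pushB_ga h hm, pushB_gb h hm,
            pushB_ga h hjg, pushB_gb h hjg, pAA, pBA, pAB, pBB, tauB, tw_ga hl, tw_gb hl, tw_ga hjg, tw_gb hjg,
            tw_ga hm, tw_gb hm, bB, hj, e0, e0', c, c', c2, mul_assoc]
        · simp [MulAut.mul_apply, pushA_gb h hl, pushB_gb h hl, pAB, pBB, tauB, tw_gb hl, bB, c, c', c2]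

theorem phi_F {g m j : ℕ} (hj : j < m) (hm : m < g) :
    (phi g m (ga m j) * tauB g m * phi g m (gb m j)) * tauB g m *
      (phi g m (ga m j) * tauB g m * phi g m (gb m j))⁻¹ = tauB g j := by
  rw [phi_ga hj, phi_gb hj, mul_inv_eq_iff_eq_mul]
  exact phi_F_aux hj hm

end Pool.Agent.helper5.Hz
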