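import Mathlib
import Pool.Agent.helper5.Hz.B3
import Pool.Agent.helper15.Hz.EquivM3

/-! # MODULE B, part 3: equivariance under `Lpair`, pushes are in the Lickorish group -/

namespace Pool.Agent.helper5.Hz

open Pool.Agent.helper35.Hz
open Pool.Agent.helper15.Hz (equiv_M_a equiv_M_b)

theorem fg_closure (m : ℕ) :
    Subgroup.closure ({x : FG m | ∃ i < m, x = ga m i} ∪ {x : FG m | ∃ i < m, x = gb m i}) = ⊤ := by
  rw [eq_top_iff, ← FreeGroup.closure_range_of, Subgroup.closure_le]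
  rintro _ ⟨⟨⟨i, hi⟩, s⟩, rfl⟩
  cases s
  · exact Subgroup.subset_closure (Or.inr ⟨i, hi, (gb_of_lt hi).symm⟩)
  · exact Subgroup.subset_closure (Or.inl ⟨i, hi, (ga_of_lt hi).symm⟩)

/-- if the equivariance holds with exponents on the generators it holds for all `w` (same exponent for all
surfaces) -/
theorem equiv_ext {m : ℕ} (T : (g : ℕ) → MulAut (FG g))
    (ha : ∀ l < m, ∃ e : ℤ, ∀ g, m < g → T g * phi g m (ga m l) * (T g)⁻¹ =
      phi g m (T m (ga m l)) * tauA g m ^ e)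
    (hb : ∀ l < m, ∃ e : ℤ, ∀ g, m < g → T g * phi g m (gb m l) * (T g)⁻¹ =
      phi g m (T m (gb m l)) * tauA g m ^ e) (w : FG m) :
    ∃ e : ℤ, ∀ g, m < g → T g * phi g m w * (T g)⁻¹ = phi g m (T m w) * tauA g m ^ e := by
  have hw : w ∈ Subgroup.closure ({x : FG m | ∃ i < m, x = ga m i} ∪ {x : FG m | ∃ i < m, x = gb m i}) := by
    rw [fg_closure]; trivial
  induction hw using Subgroup.closure_induction with
  | mem x hx =>
    rcases hx with ⟨i, hi, rfl⟩ | ⟨i, hi, rfl⟩
    · exact ha i hi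
    · exact hb i hi
  | one => exact ⟨0, fun g hg => by simp⟩
  | mul x y _ _ hx hy =>
    obtain ⟨e, he⟩ := hx
    obtain ⟨e', he'⟩ := hy
    refine ⟨e + e', fun g hg => ?_⟩
    have c : Commute (tauA g m ^ e) (phi g m (T m y)) := ((comm_phi_A hg (T m y)).zpow_right e).symm
    calc T g * phi g m (x * y) * (T g)⁻¹ = (T g * phi g m x * (T g)⁻¹) * (T g * phi g m y * (T g)⁻¹) := by
          rw [map_mul]; group
      _ = phi g m (T m x) * (tauA g m ^ e * phi g m (T m y)) * tauA g m ^ e' := by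
          rw [he g hg, he' g hg]; group
      _ = _ := by
          rw [c.eq, map_mul, map_mul, zpow_add]; group
  | inv x _ hx =>
    obtain ⟨e, he⟩ := hx
    refine ⟨-e, fun g hg => ?_⟩
    have c : Commute (tauA g m ^ (-e)) (phi g m (T m x))⁻¹ :=
      ((comm_phi_A hg (T m x)).zpow_right (-e)).symm.inv_right
    calc T g * phi g m x⁻¹ * (T g)⁻¹ = (T g * phi g m x * (T g)⁻¹)⁻¹ := by
          rw [map_inv]; group
      _ = tauA g m ^ (-e) * (phi g m (T m x))⁻¹ := by
          rw [he g hg]; group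
      _ = _ := by
          rw [c.eq, map_inv, map_inv]

theorem equiv_M {m i : ℕ} (hi : i + 1 < m) (w : FG m) :
    ∃ e : ℤ, ∀ g, m < g → tauM g i (i + 1) * phi g m w * (tauM g i (i + 1))⁻¹ =
      phi g m (tauM m i (i + 1) w) * tauA g m ^ e := by
  refine equiv_ext (fun g => tauM g i (i + 1)) (fun l hl => ⟨0, fun g hg => ?_⟩)
    (fun l hl => ⟨if l = i then 1 else if l = i + 1 then -1 else 0, fun g hg => ?_⟩) w
  · rw [zpow_zero, mul_one]; exact equiv_M_a hi hg hl
  · rw [equiv_M_b hi hg hl]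
    split_ifs <;> simp

theorem Lpair_comm {g m : ℕ} (hm : m < g) {p : MulAut (FG g) × MulAut (FG m)} (hp : p ∈ Lpair g m) :
    Commute p.1 (tauA g m) ∧ Commute p.1 (tauB g m) := by
  have _ := hm
  have key : Lpair g m ≤ (Supp g (fun l => l < m)).comap (MonoidHom.fst _ _) := by
    rw [Lpair, Subgroup.closure_le]
    rintro _ ((⟨i, hi, rfl⟩ | ⟨i, hi, rfl⟩) | ⟨i, hi, rfl⟩)
    · exact tauA_Supp hi
    · exact tauB_Supp hi
    · exact tauM_Supp fun l h1 h2 => by omega
  have h1 : p.1 ∈ Supp g (fun l => l < m) := key hp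
  exact ⟨Supp.comm (P' := fun l => l = m) (fun l h => by omega) h1 (tauA_Supp rfl),
    Supp.comm (P' := fun l => l = m) (fun l h => by omega) h1 (tauB_Supp rfl)⟩

/-- equivariance under the whole group generated by the Lickorish twists -/
theorem Lpair_equiv {g m : ℕ} (hm : m < g) {p : MulAut (FG g) × MulAut (FG m)} (hp : p ∈ Lpair g m) (w : FG m) :
    ∃ e : ℤ, p.1 * phi g m w * p.1⁻¹ = phi g m (p.2 w) * (tauA g m) ^ e := by
  have hp' := hp
  rw [Lpair] at hp'
  induction hp' using Subgroup.closure_induction generalizing w with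
  | mem x hx =>
    rcases hx with (⟨i, hi, rfl⟩ | ⟨i, hi, rfl⟩) | ⟨i, hi, rfl⟩
    · exact ⟨0, by rw [zpow_zero, mul_one]; exact equiv_A hi hm w⟩
    · exact ⟨0, by rw [zpow_zero, mul_one]; exact equiv_B hi hm w⟩
    · obtain ⟨e, he⟩ := equiv_M hi w
      exact ⟨e, he g hm⟩
  | one => exact ⟨0, by simp⟩
  | mul x y hx' hy' hx hy =>
    obtain ⟨e, he⟩ := hy hy' w
    obtain ⟨e', he'⟩ := hx hx' (y.2 w)
    have c : Commute x.1 (tauA g m ^ e) := ((Lpair_comm hm hx').1).zpow_right e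
    refine ⟨e' + e, ?_⟩
    calc (x * y).1 * phi g m w * (x * y).1⁻¹ = x.1 * (y.1 * phi g m w * y.1⁻¹) * x.1⁻¹ := by
          rw [Prod.fst_mul]; group
      _ = x.1 * phi g m (y.2 w) * (tauA g m ^ e * x.1⁻¹) := by rw [he]; group
      _ = (x.1 * phi g m (y.2 w) * x.1⁻¹) * tauA g m ^ e := by rw [c.inv_left.eq.symm]; group
      _ = _ := by rw [he', zpow_add, Prod.snd_mul, MulAut.mul_apply]; group
  | inv x hx' hx =>
    obtain ⟨e, he⟩ := hx hx' (x.2⁻¹ w)
    rw [MulAut.apply_inv_self] at he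
    have c : Commute x.1 (tauA g m ^ e) := ((Lpair_comm hm hx').1).zpow_right e
    refine ⟨-e, ?_⟩
    have h1 : phi g m w = x.1 * phi g m (x.2⁻¹ w) * x.1⁻¹ * tauA g m ^ (-e) := by
      rw [he]; group
    calc (x⁻¹).1 * phi g m w * (x⁻¹).1⁻¹ = phi g m (x.2⁻¹ w) * (x.1⁻¹ * tauA g m ^ (-e) * x.1) := by
          rw [h1, Prod.fst_inv]; group
      _ = _ := by
        rw [zpow_neg, c.inv_left.inv_right.eq, Prod.snd_inv]; group

theorem LpA {g m i : ℕ} (hi : i < m) : (tauA g i, tauA m i) ∈ Lpair g m :=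
  Subgroup.subset_closure (Or.inl (Or.inl ⟨i, hi, rfl⟩))
theorem LpB {g m i : ℕ} (hi : i < m) : (tauB g i, tauB m i) ∈ Lpair g m :=
  Subgroup.subset_closure (Or.inl (Or.inr ⟨i, hi, rfl⟩))
theorem LpM {g m i : ℕ} (hi : i + 1 < m) : (tauM g i (i + 1), tauM m i (i + 1)) ∈ Lpair g m :=
  Subgroup.subset_closure (Or.inr ⟨i, hi, rfl⟩)

/-- the elements whose pushes are in `Lpair` -/
def pK (g m m' : ℕ) : Subgroup (FG m') := (Lpair g m).comap ((phi g m').prod (phi m m'))

theorem mem_pK {g m m' : ℕ} {w : FG m'} : w ∈ pK g m m' ↔ (phi g m' w, phi m m' w) ∈ Lpair g m := Iff.rfl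

theorem pK_inv {g m m' : ℕ} (h : m' < m) (hm : m ≤ g) (T : (g : ℕ) → MulAut (FG g))
    (hT : (T g, T m) ∈ Lpair g m)
    (he : ∀ w : FG m', ∃ e : ℤ, ∀ g, m' < g → T g * phi g m' w * (T g)⁻¹ = phi g m' (T m' w) * tauA g m' ^ e)
    (w : FG m') : T m' w ∈ pK g m m' ↔ w ∈ pK g m m' := by
  obtain ⟨e, he⟩ := he w
  have hA : (tauA g m', tauA m m') ∈ Lpair g m := LpA h
  have e1 : (phi g m' (T m' w), phi m m' (T m' w)) =
      (T g, T m) * (phi g m' w, phi m m' w) * (T g, T m)⁻¹ * (tauA g m', tauA m m') ^ (-e) := by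
    refine Prod.ext ?_ ?_
    · change phi g m' (T m' w) = T g * phi g m' w * (T g)⁻¹ * tauA g m' ^ (-e)
      rw [he g (by omega)]; group
    · change phi m m' (T m' w) = T m * phi m m' w * (T m)⁻¹ * tauA m m' ^ (-e)
      rw [he m h]; group
  rw [mem_pK, mem_pK, e1]
  constructor
  · intro h1
    have h2 := mul_mem h1 (zpow_mem hA e)
    have h3 := mul_mem (mul_mem (inv_mem hT) h2) hT
    have : (T g, T m)⁻¹ * ((T g, T m) * (phi g m' w, phi m m' w) * (T g, T m)⁻¹ *
        (tauA g m', tauA m m') ^ (-e) * (tauA g m', tauA m m') ^ e) * (T g, T m) =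
        (phi g m' w, phi m m' w) := by group
    rwa [this] at h3
  · intro h1
    exact mul_mem (mul_mem (mul_mem hT h1) (inv_mem hT)) (zpow_mem hA _)

theorem tauB_ga' {m i : ℕ} (hi : i < m) : tauB m i (ga m i) = ga m i * gb m i := by
  rw [tauB, tw_ga hi]; simp [bB]
theorem tauB_gb' {m i : ℕ} (hi : i < m) : tauB m i (gb m i) = gb m i := by
  rw [tauB, tw_gb hi]; simp [bB]

/-- pushes of lower handles are in the group generated by the Lickorish twists -/
theorem phi_pair {g m m' : ℕ} (h : m' < m) (hm : m ≤ g) (w : FG m') :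
    (phi g m' w, phi m m' w) ∈ Lpair g m := by
  have invB : ∀ i < m', ∀ x, tauB m' i x ∈ pK g m m' ↔ x ∈ pK g m m' := fun i hi x =>
    pK_inv h hm (fun g => tauB g i) (LpB (by omega))
      (fun w => ⟨0, fun g hg => by rw [zpow_zero, mul_one]; exact equiv_B hi hg w⟩) x
  have invM : ∀ i, i + 1 < m' → ∀ x, tauM m' i (i + 1) x ∈ pK g m m' ↔ x ∈ pK g m m' := fun i hi x =>
    pK_inv h hm (fun g => tauM g i (i + 1)) (LpM (by omega)) (fun w => equiv_M hi w) x
  -- from `b a b⁻¹` to `a` and `b`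
  have step : ∀ i < m', gb m' i * ga m' i * (gb m' i)⁻¹ ∈ pK g m m' →
      ga m' i ∈ pK g m m' ∧ gb m' i ∈ pK g m m' := by
    intro i hi h0
    have h1 : gb m' i * ga m' i ∈ pK g m m' := by
      have := (invB i hi _).2 h0
      rw [map_mul, map_mul, map_inv, tauB_ga' hi, tauB_gb' hi] at this
      simpa [mul_assoc] using this
    have h2 : gb m' i * ga m' i * gb m' i ∈ pK g m m' := by
      have := (invB i hi _).2 h1
      rw [map_mul, tauB_ga' hi, tauB_gb' hi] at this
      simpa [mul_assoc] using this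
    have h3 : gb m' i ∈ pK g m m' := by
      have := mul_mem (inv_mem h1) h2
      simpa [mul_assoc] using this
    refine ⟨?_, h3⟩
    have := mul_mem (inv_mem h3) h1
    simpa [mul_assoc] using this
  have all : ∀ d, ∀ i, i + d + 1 = m' → ga m' i ∈ pK g m m' ∧ gb m' i ∈ pK g m m' := by
    intro d
    induction d with
    | zero =>
      intro i hi
      obtain rfl : m' = i + 1 := by omega
      refine step i (by omega) ?_
      rw [mem_pK, phi_init (by omega), phi_init (by omega)]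
      exact mul_mem (inv_mem (LpA (by omega))) (LpM (by omega))
    | succ d ih =>
      intro i hi
      obtain ⟨ha, hb⟩ := ih (i + 1) (by omega)
      refine step i (by omega) ?_
      have hM := (invM i (by omega) _).2 hb
      have hij : i < i + 1 ∧ i + 1 < m' := ⟨by omega, by omega⟩
      rw [tauM, dif_pos hij, tw_gb hij.2] at hM
      have hmu : mu m' i (i + 1) ∈ pK g m m' := by
        have := mul_mem (inv_mem hM) hb
        simpa [αM, βM, mul_assoc] using this
      have := mul_mem ha (inv_mem hmu)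
      simpa [mu, zr_self, mul_assoc] using this
  have htop : pK g m m' = ⊤ := by
    rw [eq_top_iff, ← fg_closure, Subgroup.closure_le]
    rintro _ (⟨i, hi, rfl⟩ | ⟨i, hi, rfl⟩)
    · exact (all (m' - 1 - i) i (by omega)).1
    · exact (all (m' - 1 - i) i (by omega)).2
  have : w ∈ pK g m m' := by rw [htop]; trivial
  exact this

theorem Lpair_fst_le {g : ℕ} : Lpair g g ≤ (Lam g).comap (MonoidHom.fst _ _) := by
  rw [Lpair, Subgroup.closure_le]
  rintro _ ((⟨i, hi, rfl⟩ | ⟨i, hi, rfl⟩) | ⟨i, hi, rfl⟩)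
  · exact Subgroup.subset_closure (Or.inl (Or.inl ⟨i, hi, rfl⟩))
  · exact Subgroup.subset_closure (Or.inl (Or.inr ⟨i, hi, rfl⟩))
  · exact Subgroup.subset_closure (Or.inr ⟨i, hi, rfl⟩)

theorem phi_Lam {g m : ℕ} (hm : m < g) (w : FG m) : phi g m w ∈ Lam g :=
  Lpair_fst_le (phi_pair hm le_rfl w)

end Pool.Agent.helper5.Hz
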